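import Pool.Agent.Helper15.TS.St

/-!
# Project TS (MP_434a84_lc), module COV: the covering induction
-/

set_option autoImplicit false

namespace Pool.Agent.Helper37.TS

open Pool.Agent.Helper22.FL Pool.Agent.Helper22.CS Pool.Agent.Helper15.TS

/-- `X` is covered by finitely many good sets -/
private def Good {n : ℕ} (S X : Set (Fin n → ℕ)) : Prop :=
  ∃ 𝒟 : Set (Set (Fin n → ℕ)), 𝒟.Finite ∧
      (∀ D ∈ 𝒟, (IsTwoLetter D ∨ IsSection D) ∧ D ⊆ S) ∧ X ⊆ ⋃₀ 𝒟

private lemma good_mono {n : ℕ} {S X Y : Set (Fin n → ℕ)} (h : X ⊆ Y) (hY : Good S Y) : Good S X := by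
  obtain ⟨𝒟, h1, h2, h3⟩ := hY
  exact ⟨𝒟, h1, h2, h.trans h3⟩

private lemma good_union {n : ℕ} {S X Y : Set (Fin n → ℕ)} (hX : Good S X) (hY : Good S Y) :
    Good S (X ∪ Y) := by
  obtain ⟨𝒟, h1, h2, h3⟩ := hX
  obtain ⟨ℰ, h4, h5, h6⟩ := hY
  refine ⟨𝒟 ∪ ℰ, h1.union h4, ?_, ?_⟩
  · rintro D (hD | hD)
    · exact h2 D hD
    · exact h5 D hD
  · rw [Set.sUnion_union]
    exact Set.union_subset_union h3 h6

private lemma good_biUnion {n : ℕ} {S : Set (Fin n → ℕ)} {ι : Type} {s : Set ι} (hs : s.Finite)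
    (X : ι → Set (Fin n → ℕ)) (h : ∀ i ∈ s, Good S (X i)) : Good S (⋃ i ∈ s, X i) := by
  unfold Good at h
  choose! 𝒟 h1 h2 h3 using h
  refine ⟨⋃ i ∈ s, 𝒟 i, hs.biUnion h1, ?_, ?_⟩
  · intro D hD
    obtain ⟨i, hi, hD'⟩ := Set.mem_iUnion₂.1 hD
    exact h2 i hi D hD'
  · intro x hx
    obtain ⟨i, hi, hx'⟩ := Set.mem_iUnion₂.1 hx
    obtain ⟨D, hD, hxD⟩ := h3 i hi hx'
    exact ⟨D, Set.mem_iUnion₂.2 ⟨i, hi, hD⟩, hxD⟩

private lemma mem_lettersOf {n : ℕ} {P : Finset (Fin n → ℕ)} {i : Fin n} (h : i ∈ lettersOf P) :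
    ∃ p ∈ P, p i ≠ 0 := by
  unfold lettersOf at h
  obtain ⟨p, hp, hi⟩ := Finset.mem_biUnion.1 h
  refine ⟨p, hp, ?_⟩
  unfold letters at hi
  exact (Finset.mem_filter.1 hi).2

/-- Module COV. -/
theorem stcov : StCOV := by
  classical
  intro n S d hd H P
  induction hN : P.card using Nat.strong_induction_on generalizing P with
  | _ N ih =>
  intro c hlin
  change Good S (lin c P)
  rcases Nat.lt_or_ge 2 (lettersOf P).card with h3 | h2
  swap
  · refine ⟨{lin c P}, Set.finite_singleton _, ?_, ?_⟩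
    · intro D hD
      rw [Set.mem_singleton_iff] at hD
      subst hD
      exact ⟨Or.inl ⟨c, P, h2, rfl⟩, hlin⟩
    · rw [Set.sUnion_singleton]
  -- the finitely many residues
  let C : Set (Fin n → ℕ) := {c' | ∃ f : (Fin n → ℕ) → ℕ, (∀ p, f p < d) ∧ c' = c + ∑ p ∈ P, f p • p}
  have hC : C.Finite := by
    refine (Set.finite_Iic (c + ∑ p ∈ P, d • p)).subset ?_
    rintro c' ⟨f, hf, rfl⟩
    rw [Set.mem_Iic]
    refine add_le_add le_rfl (Finset.sum_le_sum fun p _ => ?_)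
    exact smul_le_smul_of_nonneg_right (hf p).le zero_le
  have hcov : lin c P ⊆ ⋃ c' ∈ C, {x | ∃ s : (Fin n → ℕ) → ℕ, x = c' + d • ∑ p ∈ P, s p • p} := by
    rintro x ⟨t, rfl⟩
    refine Set.mem_iUnion₂.2 ⟨c + ∑ p ∈ P, (t p % d) • p, ⟨fun p => t p % d, fun p => Nat.mod_lt _ hd, rfl⟩,
      fun p => t p / d, ?_⟩
    rw [add_assoc, Finset.smul_sum, ← Finset.sum_add_distrib]
    congr 1
    refine Finset.sum_congr rfl fun p _ => ?_
    rw [smul_smul, ← add_smul, Nat.mod_add_div]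
  refine good_mono hcov (good_biUnion hC _ ?_)
  rintro c' ⟨f, hf, hc'⟩
  have hcl : ∀ t : (Fin n → ℕ) → ℕ, c' + d • ∑ p ∈ P, t p • p ∈ S := by
    intro t
    apply hlin
    refine ⟨fun p => f p + d * t p, ?_⟩
    rw [hc', add_assoc, Finset.smul_sum, ← Finset.sum_add_distrib]
    congr 1
    refine Finset.sum_congr rfl fun p _ => ?_
    rw [smul_smul, ← add_smul]
  obtain ⟨a, α, k, B, hsec, hB⟩ := H (lettersOf P) P c' h3 rfl hcl
  have hcov2 : {x | ∃ s : (Fin n → ℕ) → ℕ, x = c' + d • ∑ p ∈ P, s p • p} ⊆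
      sec (lettersOf P) a d α k ∪ ⋃ q ∈ ((P ×ˢ Finset.range B : Finset ((Fin n → ℕ) × ℕ)) :
        Set ((Fin n → ℕ) × ℕ)), lin (c' + (d * q.2) • q.1) (P.erase q.1) := by
    rintro x ⟨t, rfl⟩
    by_cases hall : ∀ i ∈ lettersOf P, B ≤ (c' + d • ∑ p ∈ P, t p • p) i
    · exact Or.inl (hB t hall)
    · right
      push Not at hall
      obtain ⟨i, hi, hlt⟩ := hall
      obtain ⟨p1, hp1, hp1i⟩ := mem_lettersOf hi
      have hsplit : ∑ p ∈ P, t p • p = t p1 • p1 + ∑ p ∈ P.erase p1, t p • p :=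
        (Finset.add_sum_erase P (fun p => t p • p) hp1).symm
      have hτ : t p1 < B := by
        refine lt_of_le_of_lt ?_ hlt
        rw [hsplit]
        simp only [Pi.add_apply, Pi.smul_apply, smul_eq_mul]
        have h4 : 1 ≤ p1 i := Nat.one_le_iff_ne_zero.2 hp1i
        calc t p1 ≤ t p1 * p1 i := Nat.le_mul_of_pos_right _ h4
          _ ≤ d * (t p1 * p1 i) := Nat.le_mul_of_pos_left _ hd
          _ ≤ c' i + d * (t p1 * p1 i + (∑ p ∈ P.erase p1, t p • p) i) := by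
            have : t p1 * p1 i ≤ t p1 * p1 i + (∑ p ∈ P.erase p1, t p • p) i := Nat.le_add_right _ _
            have := Nat.mul_le_mul_left d this
            omega
      refine Set.mem_iUnion₂.2 ⟨(p1, t p1), ?_, fun p => d * t p, ?_⟩
      · rw [Finset.mem_coe, Finset.mem_product, Finset.mem_range]
        exact ⟨hp1, hτ⟩
      · rw [hsplit, smul_add, smul_smul, Finset.smul_sum, add_assoc]
        congr 2
        refine Finset.sum_congr rfl fun p _ => ?_
        rw [smul_smul]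
  refine good_mono hcov2 (good_union ?_ (good_biUnion (Finset.finite_toSet _) _ ?_))
  · refine ⟨{sec (lettersOf P) a d α k}, Set.finite_singleton _, ?_, ?_⟩
    · intro D hD
      rw [Set.mem_singleton_iff] at hD
      subst hD
      exact ⟨Or.inr ⟨_, a, d, α, k, hd, rfl⟩, hsec⟩
    · rw [Set.sUnion_singleton]
  · rintro ⟨p1, τ⟩ hq
    rw [Finset.mem_coe, Finset.mem_product, Finset.mem_range] at hq
    have hp1 : p1 ∈ P := hq.1
    refine ih (P.erase p1).card ?_ (P.erase p1) rfl _ ?_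
    · rw [← hN]
      exact Finset.card_erase_lt_of_mem hp1
    · rintro x ⟨t, rfl⟩
      apply hlin
      refine ⟨fun p => f p + (if p = p1 then d * τ else t p), ?_⟩
      have h5 : ∑ p ∈ P, (f p + (if p = p1 then d * τ else t p)) • p =
          ∑ p ∈ P, f p • p + ((d * τ) • p1 + ∑ p ∈ P.erase p1, t p • p) := by
        have h6 : ∑ p ∈ P, (if p = p1 then d * τ else t p) • p =
            (d * τ) • p1 + ∑ p ∈ P.erase p1, t p • p := by
          rw [← Finset.add_sum_erase P _ hp1, if_pos rfl]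
          congr 1
          refine Finset.sum_congr rfl fun p hp => ?_
          rw [if_neg (Finset.ne_of_mem_erase hp)]
        rw [← h6, ← Finset.sum_add_distrib]
        exact Finset.sum_congr rfl fun p _ => add_smul _ _ _
      rw [h5, hc']
      simp only [add_assoc]

end Pool.Agent.Helper37.TS
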