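import Pool.Agent.Helper15.TS.St

/-!
# Project TS (MP_434a84_lc), module GENB: two generic integer vectors
-/

set_option autoImplicit false

namespace Pool.Agent.Helper37.TS

open Pool.Agent.Helper22.FL Pool.Agent.Helper22.CS Pool.Agent.Helper15.TS

/-- extension by zero -/
private noncomputable def Ext {n : ℕ} (I : Finset (Fin n)) : ({i // i ∈ I} → ℚ) →ₗ[ℚ] (Fin n → ℚ) where
  toFun x := fun i => if h : i ∈ I then x ⟨i, h⟩ else 0
  map_add' x y := by
    funext i
    by_cases h : i ∈ I <;> simp [h]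
  map_smul' c x := by
    funext i
    by_cases h : i ∈ I <;> simp [h]

private lemma Ext_apply {n : ℕ} (I : Finset (Fin n)) (x : {i // i ∈ I} → ℚ) (i : Fin n) :
    Ext I x i = if h : i ∈ I then x ⟨i, h⟩ else 0 := rfl

private lemma Ext_inj {n : ℕ} (I : Finset (Fin n)) : Function.Injective (Ext I) := by
  intro x y h
  funext i
  have h1 := congrFun h i.1
  rw [Ext_apply, Ext_apply, dif_pos i.2, dif_pos i.2] at h1
  exact h1

private lemma comap_ne_top {n : ℕ} (I : Finset (Fin n)) (V : Submodule ℚ (Fin n → ℚ))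
    (hV : Module.finrank ℚ V < I.card) : V.comap (Ext I) ≠ ⊤ := by
  intro htop
  have hmem : ∀ x, Ext I x ∈ V := fun x => by
    have : x ∈ V.comap (Ext I) := by rw [htop]; trivial
    exact this
  have h1 : Module.finrank ℚ ({i // i ∈ I} → ℚ) ≤ Module.finrank ℚ V := by
    refine LinearMap.finrank_le_finrank_of_injective (f := (Ext I).codRestrict V hmem) ?_
    intro x y hxy
    apply Ext_inj I
    exact congrArg Subtype.val hxy
  rw [Module.finrank_fintype_fun_eq_card, Fintype.card_coe] at h1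
  omega

/-- one generic vector -/
private lemma gen_one {n : ℕ} (I : Finset (Fin n)) (𝒱 : Finset (Submodule ℚ (Fin n → ℚ)))
    (h : ∀ V ∈ 𝒱, Module.finrank ℚ V < I.card) :
    ∃ g : Fin n → ℤ, (∀ i, i ∉ I → g i = 0) ∧ ∀ V ∈ 𝒱, (fun i => (g i : ℚ)) ∉ V := by
  classical
  have htop : ⊤ ∉ 𝒱.image (fun V => V.comap (Ext I)) := by
    intro hm
    obtain ⟨V, hV, hV2⟩ := Finset.mem_image.1 hm
    exact comap_ne_top I V (h V hV) hV2
  have h1 := Subspace.biUnion_ne_univ_of_top_notMem htop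
  obtain ⟨x, hx⟩ := (Set.ne_univ_iff_exists_notMem _).1 h1
  have hx2 : ∀ V ∈ 𝒱, Ext I x ∉ V := by
    intro V hV hm
    apply hx
    refine Set.mem_biUnion (Finset.mem_coe.2 (Finset.mem_image_of_mem _ hV)) ?_
    exact hm
  obtain ⟨b, hb⟩ := IsLocalization.exist_integer_multiples_of_finite (nonZeroDivisors ℤ) (Ext I x)
  choose g hg using hb
  have hb0 : ((b : ℤ) : ℚ) ≠ 0 := by
    have := nonZeroDivisors.ne_zero b.2
    exact_mod_cast this
  have hg' : ∀ i, (g i : ℚ) = ((b : ℤ) : ℚ) * Ext I x i := by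
    intro i
    have := hg i
    simpa using this
  refine ⟨g, ?_, ?_⟩
  · intro i hi
    have h2 := hg' i
    rw [Ext_apply, dif_neg hi, mul_zero] at h2
    exact_mod_cast h2
  · intro V hV hm
    apply hx2 V hV
    have h3 : Ext I x = (((b : ℤ) : ℚ))⁻¹ • (fun i => (g i : ℚ)) := by
      funext i
      rw [Pi.smul_apply, hg', smul_eq_mul, ← mul_assoc, inv_mul_cancel₀ hb0, one_mul]
    rw [h3]
    exact V.smul_mem _ hm

/-- Module GENB. -/
theorem stgenb : StGENB := by
  classical
  intro n I 𝒱 h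
  obtain ⟨g1, hg1, hg1V⟩ := gen_one I 𝒱 (fun V hV => by have := h V hV; omega)
  obtain ⟨g2, hg2, hg2V⟩ := gen_one I
    (𝒱.image (fun V => V ⊔ Submodule.span ℚ {(fun i => (g1 i : ℚ))})) (by
      intro W hW
      obtain ⟨V, hV, rfl⟩ := Finset.mem_image.1 hW
      have h1 := Submodule.finrank_add_le_finrank_add_finrank V
        (Submodule.span ℚ {(fun i => (g1 i : ℚ))})
      have h2 := finrank_span_le_card (R := ℚ) ({(fun i => (g1 i : ℚ))} : Set (Fin n → ℚ))
      rw [Set.toFinset_singleton, Finset.card_singleton] at h2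
      have h3 := h V hV
      omega)
  refine ⟨g1, g2, fun i hi => ⟨hg1 i hi, hg2 i hi⟩, ?_⟩
  intro V hV β γ hm
  have hγ : γ = 0 := by
    by_contra hγ
    apply hg2V _ (Finset.mem_image_of_mem _ hV)
    have h1 : (fun i => (g2 i : ℚ)) = γ⁻¹ • (fun i => β * (g1 i : ℚ) + γ * (g2 i : ℚ)) +
        (-(γ⁻¹ * β)) • (fun i => (g1 i : ℚ)) := by
      funext i
      simp only [Pi.add_apply, Pi.smul_apply, smul_eq_mul]
      field_simp
      ring
    rw [h1]
    refine Submodule.add_mem_sup (V.smul_mem _ hm) (Submodule.smul_mem _ _ ?_)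
    exact Submodule.mem_span_singleton_self _
  refine ⟨?_, hγ⟩
  by_contra hβ
  apply hg1V V hV
  have h1 : (fun i => (g1 i : ℚ)) = β⁻¹ • (fun i => β * (g1 i : ℚ) + γ * (g2 i : ℚ)) := by
    funext i
    rw [hγ]
    simp only [Pi.smul_apply, smul_eq_mul]
    field_simp
    ring
  rw [h1]
  exact V.smul_mem _ hm

end Pool.Agent.Helper37.TS
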